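import Mathlib
import Pool.Agent.Q184.BK.HH2

/-!
The Burns-Krantz rigidity property of the symmetrized bidisc at its smooth boundary points.
-/

set_option autoImplicit false

open Set Metric Filter Topology ComplexConjugate

namespace Pool.Agent.Results.MP_f98e31_an.BurnsKrantz

open Pool.Agent.Q184.BK

/-- The symmetrized bidisc. -/
def G2 : Set (ℂ × ℂ) := {z | ∃ a b : ℂ, ‖a‖ < 1 ∧ ‖b‖ < 1 ∧ z = (a + b, a * b)}

/-- The Shilov boundary of the symmetrized bidisc. -/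
def Shilov : Set (ℂ × ℂ) := {z | ∃ a b : ℂ, ‖a‖ = 1 ∧ ‖b‖ = 1 ∧ z = (a + b, a * b)}

/-- The Euclidean norm of `ℂ²`. -/
noncomputable def enrm (z : ℂ × ℂ) : ℝ := Real.sqrt (‖z.1‖ ^ 2 + ‖z.2‖ ^ 2)

/-- The Burns-Krantz condition at `p`: `F (z) = z + o (‖z - p‖³)` as `z → p` in `D`. -/
def BKCond (D : Set (ℂ × ℂ)) (p : ℂ × ℂ) (F : ℂ × ℂ → ℂ × ℂ) : Prop :=
  ∀ ε : ℝ, 0 < ε → ∃ δ : ℝ, 0 < δ ∧ ∀ z ∈ D, enrm (z - p) < δ →
    enrm (F z - z) ≤ ε * enrm (z - p) ^ 3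

/-- The Burns-Krantz rigidity property of the pair `(D, p)`. -/
def BKRigid (D : Set (ℂ × ℂ)) (p : ℂ × ℂ) : Prop :=
  ∀ F : ℂ × ℂ → ℂ × ℂ, DifferentiableOn ℂ F D → MapsTo F D D → BKCond D p F → ∀ z ∈ D, F z = z

/-! ### The geometry of the symmetrized bidisc -/

theorem exists_roots (s p : ℂ) : ∃ a b : ℂ, (s, p) = (a + b, a * b) := by
  obtain ⟨c, hc⟩ := IsAlgClosed.exists_pow_nat_eq (s ^ 2 - 4 * p) two_pos
  refine ⟨(s + c) / 2, (s - c) / 2, ?_⟩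
  ext
  · simp only; ring
  · simp only; linear_combination (1 / 4) * hc

theorem G2_open : IsOpen G2 := by
  rw [Metric.isOpen_iff]
  rintro _ ⟨a, b, ha, hb, rfl⟩
  have hpos : 0 < (1 - ‖a‖) * (1 - ‖b‖) := mul_pos (by linarith) (by linarith)
  refine ⟨(1 - ‖a‖) * (1 - ‖b‖) / 2, by positivity, ?_⟩
  rintro ⟨s, p⟩ hz
  rw [mem_ball, Prod.dist_eq, max_lt_iff, dist_eq_norm, dist_eq_norm] at hz
  obtain ⟨h1, h2⟩ := hz
  simp only at h1 h2
  obtain ⟨c, d, hcd⟩ := exists_roots s p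
  have hs : s = c + d := congrArg Prod.fst hcd
  have hp : p = c * d := congrArg Prod.snd hcd
  have key : ∀ t : ℂ, t ^ 2 - s * t + p = 0 → ‖t‖ < 1 := by
    intro t ht
    by_contra hge
    rw [not_lt] at hge
    have e1 : (t - a) * (t - b) = (s - (a + b)) * t - (p - a * b) := by linear_combination ht
    have h3 : ‖t‖ * (1 - ‖a‖) ≤ ‖t - a‖ := by
      have := norm_sub_norm_le t a
      nlinarith [norm_nonneg a]
    have h4 : ‖t‖ * (1 - ‖b‖) ≤ ‖t - b‖ := by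
      have := norm_sub_norm_le t b
      nlinarith [norm_nonneg b]
    have h5 : (‖t‖ * (1 - ‖a‖)) * (‖t‖ * (1 - ‖b‖)) ≤ ‖t - a‖ * ‖t - b‖ :=
      mul_le_mul h3 h4 (mul_nonneg (norm_nonneg _) (by linarith)) (norm_nonneg _)
    rw [← norm_mul, e1] at h5
    have h6 : ‖(s - (a + b)) * t - (p - a * b)‖ ≤ ‖s - (a + b)‖ * ‖t‖ + ‖p - a * b‖ := by
      refine (norm_sub_le _ _).trans ?_
      rw [norm_mul]
    have h7 : ‖s - (a + b)‖ * ‖t‖ + ‖p - a * b‖ <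
        (1 - ‖a‖) * (1 - ‖b‖) / 2 * (‖t‖ * ‖t‖) + (1 - ‖a‖) * (1 - ‖b‖) / 2 * (‖t‖ * ‖t‖) := by
      have h8 : 1 ≤ ‖t‖ * ‖t‖ := by nlinarith
      have h9 : ‖t‖ ≤ ‖t‖ * ‖t‖ := by nlinarith
      have h10 : ‖s - (a + b)‖ * ‖t‖ ≤ (1 - ‖a‖) * (1 - ‖b‖) / 2 * (‖t‖ * ‖t‖) :=
        mul_le_mul h1.le h9 (norm_nonneg _) (by positivity)
      have h11 : ‖p - a * b‖ < (1 - ‖a‖) * (1 - ‖b‖) / 2 * (‖t‖ * ‖t‖) := by nlinarith
      linarith
    nlinarith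
  refine ⟨c, d, key c ?_, key d ?_, hcd⟩
  · rw [hs, hp]; ring
  · rw [hs, hp]; ring

/-- smooth boundary points -/
theorem smooth_point {p : ℂ × ℂ} (hp : p ∈ frontier G2) (hS : p ∉ Shilov) :
    ∃ x0 y0 : ℂ, ‖x0‖ < 1 ∧ ‖y0‖ = 1 ∧ p = (x0 + y0, x0 * y0) := by
  have h1 : p ∉ G2 := by
    rw [frontier, G2_open.interior_eq] at hp
    exact hp.2
  have h2 : p ∈ closure G2 := frontier_subset_closure hp
  let K : Set (ℂ × ℂ) := (fun q : ℂ × ℂ => (q.1 + q.2, q.1 * q.2)) ''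
    (closedBall (0 : ℂ) 1 ×ˢ closedBall (0 : ℂ) 1)
  have hK : IsCompact K := by
    apply ((isCompact_closedBall _ _).prod (isCompact_closedBall _ _)).image
    fun_prop
  have hGK : G2 ⊆ K := by
    rintro _ ⟨a, b, ha, hb, rfl⟩
    exact ⟨(a, b), ⟨by simpa using ha.le, by simpa using hb.le⟩, rfl⟩
  obtain ⟨⟨a, b⟩, ⟨ha, hb⟩, hab⟩ := closure_minimal hGK hK.isClosed h2
  have ha' : ‖a‖ ≤ 1 := by simpa using ha
  have hb' : ‖b‖ ≤ 1 := by simpa using hb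
  have hab' : p = (a + b, a * b) := hab.symm
  rcases lt_or_eq_of_le ha' with ha1 | ha1
  · rcases lt_or_eq_of_le hb' with hb1 | hb1
    · exact absurd ⟨a, b, ha1, hb1, hab'⟩ h1
    · exact ⟨a, b, ha1, hb1, hab'⟩
  · rcases lt_or_eq_of_le hb' with hb1 | hb1
    · exact ⟨b, a, hb1, ha1, by rw [hab', add_comm, mul_comm]⟩
    · exact absurd ⟨a, b, ha1, hb1, hab'⟩ hS

theorem norm_le_enrm (z : ℂ × ℂ) : ‖z.1‖ ≤ enrm z ∧ ‖z.2‖ ≤ enrm z := by
  unfold enrm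
  constructor
  · apply Real.le_sqrt_of_sq_le
    nlinarith [sq_nonneg ‖z.2‖]
  · apply Real.le_sqrt_of_sq_le
    nlinarith [sq_nonneg ‖z.1‖]

theorem enrm_le (z : ℂ × ℂ) : enrm z ≤ ‖z.1‖ + ‖z.2‖ := by
  unfold enrm
  apply Real.sqrt_le_iff.mpr
  have h1 := norm_nonneg z.1
  have h2 := norm_nonneg z.2
  constructor
  · positivity
  · nlinarith

theorem enrm_nonneg (z : ℂ × ℂ) : 0 ≤ enrm z := Real.sqrt_nonneg _

/-! ### The Cayley transform adapted to a smooth boundary point -/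

/-- Parameters. -/
structure Par (x0 y0 ω : ℂ) : Prop where
  hx : ‖x0‖ < 1
  hy : ‖y0‖ = 1
  hω : ‖ω‖ = 1
  hyω : 1 - conj x0 * y0 = ω * (y0 - x0)

/-- numerator and denominator of the Cayley transform -/
def Nn (x0 ω z : ℂ) : ℂ := (1 - conj x0 * z) + ω * (z - x0)
def Dn (x0 ω z : ℂ) : ℂ := (1 - conj x0 * z) - ω * (z - x0)

/-- numerator and denominator of the inverse Cayley transform -/
def nu (x0 ω X : ℂ) : ℂ := (X - 1) + ω * x0 * (X + 1)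
def de (x0 ω X : ℂ) : ℂ := ω * (X + 1) + conj x0 * (X - 1)

/-- the inverse Cayley transform -/
noncomputable def xi (x0 ω X : ℂ) : ℂ := nu x0 ω X / de x0 ω X

/-- symmetric polynomials -/
def AA (x0 ω : ℂ) (z : ℂ × ℂ) : ℂ :=
  2 * (1 - ω * x0) * (1 + ω * x0) +
    ((1 - ω * x0) * (-(conj x0 + ω)) + (ω - conj x0) * (1 + ω * x0)) * z.1 +
      2 * (ω - conj x0) * (-(conj x0 + ω)) * z.2
def BB (x0 ω : ℂ) (z : ℂ × ℂ) : ℂ :=
  (1 - ω * x0) ^ 2 + (1 - ω * x0) * (ω - conj x0) * z.1 + (ω - conj x0) ^ 2 * z.2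
def QQ (x0 ω : ℂ) (z : ℂ × ℂ) : ℂ :=
  (1 + ω * x0) ^ 2 + (1 + ω * x0) * (-(conj x0 + ω)) * z.1 + (-(conj x0 + ω)) ^ 2 * z.2

theorem AA_eq (x0 ω a b : ℂ) : AA x0 ω (a + b, a * b) =
    Nn x0 ω a * Dn x0 ω b + Nn x0 ω b * Dn x0 ω a := by
  unfold AA Nn Dn; ring
theorem BB_eq (x0 ω a b : ℂ) : BB x0 ω (a + b, a * b) = Nn x0 ω a * Nn x0 ω b := by
  unfold BB Nn; ring
theorem QQ_eq (x0 ω a b : ℂ) : QQ x0 ω (a + b, a * b) = Dn x0 ω a * Dn x0 ω b := by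
  unfold QQ Dn; ring

section par

variable {x0 y0 ω : ℂ}

theorem normSq_ω (P : Par x0 y0 ω) : ω * conj ω = 1 := by
  rw [Complex.mul_conj, Complex.normSq_eq_norm_sq, P.hω]
  norm_num

/-- the real part of `N \bar D` -/
theorem ND_re (P : Par x0 y0 ω) (z : ℂ) :
    (Nn x0 ω z * conj (Dn x0 ω z)).re = (1 - ‖x0‖ ^ 2) * (1 - ‖z‖ ^ 2) := by
  have h1 : (Nn x0 ω z * conj (Dn x0 ω z)).re = Complex.normSq (1 - conj x0 * z) -
      Complex.normSq (ω * (z - x0)) := by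
    unfold Nn Dn
    simp only [Complex.normSq_apply, Complex.mul_re, Complex.add_re, Complex.add_im,
      Complex.sub_re, Complex.sub_im, Complex.conj_re, Complex.conj_im]
    ring
  rw [h1, Complex.normSq_mul, Complex.normSq_eq_norm_sq ω, P.hω, ← Complex.normSq_eq_norm_sq,
    ← Complex.normSq_eq_norm_sq]
  simp only [Complex.normSq_apply, Complex.mul_re, Complex.mul_im, Complex.sub_re, Complex.sub_im,
    Complex.conj_re, Complex.conj_im, Complex.one_re, Complex.one_im]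
  ring

theorem Dn_ne (P : Par x0 y0 ω) {z : ℂ} (hz : ‖z‖ < 1) : Dn x0 ω z ≠ 0 := by
  intro h
  have h1 := ND_re P z
  rw [h, map_zero, mul_zero, Complex.zero_re] at h1
  have h2 := P.hx
  have h3 : 0 < (1 - ‖x0‖ ^ 2) * (1 - ‖z‖ ^ 2) := by
    apply mul_pos
    · nlinarith [norm_nonneg x0]
    · nlinarith [norm_nonneg z]
  linarith

theorem cay_RH (P : Par x0 y0 ω) {z : ℂ} (hz : ‖z‖ < 1) : Nn x0 ω z / Dn x0 ω z ∈ RH := by
  have hD := Dn_ne P hz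
  have h1 := re_div_mul (Nn x0 ω z) (Dn x0 ω z) hD
  rw [ND_re P z] at h1
  have h2 := P.hx
  have h3 : 0 < (1 - ‖x0‖ ^ 2) * (1 - ‖z‖ ^ 2) := by
    apply mul_pos
    · nlinarith [norm_nonneg x0]
    · nlinarith [norm_nonneg z]
  rw [← h1] at h3
  have h4 : 0 < ‖Dn x0 ω z‖ ^ 2 := by
    have := norm_pos_iff.mpr hD
    positivity
  exact (mul_pos_iff_of_pos_left h4).mp h3

theorem norm_lt_of_RH {X : ℂ} (hX : X ∈ RH) : ‖X - 1‖ < ‖X + 1‖ := by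
  have hX' : 0 < X.re := hX
  have h1 := norm_add_conj_sq X 1
  rw [map_one, Complex.one_re] at h1
  exact lt_of_pow_lt_pow_left₀ 2 (norm_nonneg _) (by nlinarith)

theorem one_le_of_RH {X : ℂ} (hX : X ∈ RH) : 1 ≤ ‖X + 1‖ := by
  have hX' : 0 < X.re := hX
  have h1 := Complex.re_le_norm (X + 1)
  rw [Complex.add_re, Complex.one_re] at h1
  linarith

theorem de_lower (P : Par x0 y0 ω) {X : ℂ} (hX : X ∈ RH) : 1 - ‖x0‖ ≤ ‖de x0 ω X‖ := by
  have h1 := norm_lt_of_RH hX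
  have h2 := one_le_of_RH hX
  have h3 := P.hx
  have h4 : ‖ω * (X + 1)‖ - ‖conj x0 * (X - 1)‖ ≤ ‖de x0 ω X‖ := by
    unfold de
    have := norm_sub_norm_le (ω * (X + 1)) (-(conj x0 * (X - 1)))
    rw [norm_neg, sub_neg_eq_add] at this
    exact this
  rw [norm_mul, norm_mul, P.hω, RCLike.norm_conj, one_mul] at h4
  nlinarith [norm_nonneg x0, norm_nonneg (X - 1)]

theorem de_ne (P : Par x0 y0 ω) {X : ℂ} (hX : X ∈ RH) : de x0 ω X ≠ 0 := by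
  intro h
  have h1 := de_lower P hX
  rw [h, norm_zero] at h1
  have := P.hx
  linarith

theorem de_upper (P : Par x0 y0 ω) {X : ℂ} (hX : X ∈ RH) : ‖de x0 ω X‖ ≤ 2 * ‖X + 1‖ := by
  have h1 := norm_lt_of_RH hX
  have h3 := P.hx
  unfold de
  refine (norm_add_le _ _).trans ?_
  rw [norm_mul, norm_mul, P.hω, RCLike.norm_conj, one_mul]
  nlinarith [norm_nonneg x0, norm_nonneg (X - 1)]

theorem xi_lt (P : Par x0 y0 ω) {X : ℂ} (hX : X ∈ RH) : ‖xi x0 ω X‖ < 1 := by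
  have hX' : 0 < X.re := hX
  have hd := norm_pos_iff.mpr (de_ne P hX)
  unfold xi
  rw [norm_div, div_lt_one hd]
  have h1 : ‖de x0 ω X‖ ^ 2 - ‖nu x0 ω X‖ ^ 2 = (‖X + 1‖ ^ 2 - ‖X - 1‖ ^ 2) * (1 - ‖x0‖ ^ 2) := by
    have hω : ω.re ^ 2 + ω.im ^ 2 = 1 := by
      have h2 : Complex.normSq ω = 1 := by
        rw [Complex.normSq_eq_norm_sq, P.hω]; norm_num
      rw [Complex.normSq_apply] at h2
      linarith
    rw [← Complex.normSq_eq_norm_sq, ← Complex.normSq_eq_norm_sq, ← Complex.normSq_eq_norm_sq,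
      ← Complex.normSq_eq_norm_sq, ← Complex.normSq_eq_norm_sq]
    unfold de nu
    simp only [Complex.normSq_apply, Complex.mul_re, Complex.mul_im, Complex.add_re, Complex.add_im,
      Complex.sub_re, Complex.sub_im, Complex.conj_re, Complex.conj_im, Complex.one_re,
      Complex.one_im]
    linear_combination (((X.re + 1) ^ 2 + X.im ^ 2) * (1 - (x0.re ^ 2 + x0.im ^ 2))) * hω
  have h2 := norm_lt_of_RH hX
  have h3 := P.hx
  have h4 : 0 < (‖X + 1‖ ^ 2 - ‖X - 1‖ ^ 2) * (1 - ‖x0‖ ^ 2) := by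
    apply mul_pos
    · nlinarith [norm_nonneg (X - 1)]
    · nlinarith [norm_nonneg x0]
  exact lt_of_pow_lt_pow_left₀ 2 hd.le (by linarith)

theorem xi_sub (P : Par x0 y0 ω) {X : ℂ} (hX : X ∈ RH) :
    xi x0 ω X - x0 = (X - 1) * (1 - conj x0 * x0) / de x0 ω X := by
  have hd := de_ne P hX
  unfold xi
  rw [div_sub' hd]
  congr 1
  unfold nu de
  ring

theorem one_sub_xi (P : Par x0 y0 ω) {X : ℂ} (hX : X ∈ RH) :
    1 - conj x0 * xi x0 ω X = ω * (X + 1) * (1 - conj x0 * x0) / de x0 ω X := by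
  have hd := de_ne P hX
  unfold xi
  rw [eq_div_iff hd, sub_mul, mul_assoc, div_mul_cancel₀ _ hd]
  unfold nu de
  ring

theorem Dn_xi (P : Par x0 y0 ω) {X : ℂ} (hX : X ∈ RH) :
    Dn x0 ω (xi x0 ω X) = 2 * ω * (1 - conj x0 * x0) / de x0 ω X := by
  unfold Dn
  rw [one_sub_xi P hX, xi_sub P hX]
  ring

theorem Nn_xi (P : Par x0 y0 ω) {X : ℂ} (hX : X ∈ RH) :
    Nn x0 ω (xi x0 ω X) = X * Dn x0 ω (xi x0 ω X) := by
  rw [Dn_xi P hX]
  unfold Nn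
  rw [one_sub_xi P hX, xi_sub P hX]
  ring

theorem cay_xi (P : Par x0 y0 ω) {X : ℂ} (hX : X ∈ RH) :
    Nn x0 ω (xi x0 ω X) / Dn x0 ω (xi x0 ω X) = X := by
  rw [Nn_xi P hX]
  exact mul_div_cancel_right₀ _ (Dn_ne P (xi_lt P hX))

theorem k0 (P : Par x0 y0 ω) : 1 - conj x0 * x0 ≠ 0 := by
  intro h
  have h1 : conj x0 * x0 = ((‖x0‖ ^ 2 : ℝ) : ℂ) := by
    rw [mul_comm, Complex.mul_conj, Complex.normSq_eq_norm_sq]
  rw [h1] at h
  have h2 : ((1 - ‖x0‖ ^ 2 : ℝ) : ℂ) = 0 := by push_cast; push_cast at h; exact h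
  have h3 : 1 - ‖x0‖ ^ 2 = 0 := by exact_mod_cast h2
  have := P.hx
  nlinarith [norm_nonneg x0]

/-- the Cayley transform is injective on the disc -/
theorem cay_inj (P : Par x0 y0 ω) {a b : ℂ} (ha : ‖a‖ < 1) (hb : ‖b‖ < 1)
    (h : Nn x0 ω a / Dn x0 ω a = Nn x0 ω b / Dn x0 ω b) : a = b := by
  rw [div_eq_div_iff (Dn_ne P ha) (Dn_ne P hb)] at h
  have h1 : (2 * ω * (1 - conj x0 * x0)) * (a - b) = 0 := by
    unfold Nn Dn at h
    linear_combination h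
  have hω : ω ≠ 0 := by
    intro h0
    have := P.hω
    rw [h0, norm_zero] at this
    exact zero_ne_one this
  have h2 : (2 * ω * (1 - conj x0 * x0)) ≠ 0 := mul_ne_zero (mul_ne_zero two_ne_zero hω) (k0 P)
  have := (mul_eq_zero.mp h1).resolve_left h2
  linear_combination this

theorem xi_cay (P : Par x0 y0 ω) {a : ℂ} (ha : ‖a‖ < 1) : xi x0 ω (Nn x0 ω a / Dn x0 ω a) = a := by
  have hX := cay_RH P ha
  exact cay_inj P (xi_lt P hX) ha (cay_xi P hX)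

theorem de_lower' (P : Par x0 y0 ω) {X : ℂ} (hX : X ∈ RH) :
    (1 - ‖x0‖) * ‖X + 1‖ ≤ ‖de x0 ω X‖ := by
  have h1 := norm_lt_of_RH hX
  have h4 : ‖ω * (X + 1)‖ - ‖conj x0 * (X - 1)‖ ≤ ‖de x0 ω X‖ := by
    unfold de
    have := norm_sub_norm_le (ω * (X + 1)) (-(conj x0 * (X - 1)))
    rw [norm_neg, sub_neg_eq_add] at this
    exact this
  rw [norm_mul, norm_mul, P.hω, RCLike.norm_conj, one_mul] at h4
  nlinarith [norm_nonneg x0, norm_nonneg (X - 1)]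

theorem norm_k0 (P : Par x0 y0 ω) : ‖1 - conj x0 * x0‖ = 1 - ‖x0‖ ^ 2 := by
  have h1 : conj x0 * x0 = ((‖x0‖ ^ 2 : ℝ) : ℂ) := by
    rw [mul_comm, Complex.mul_conj, Complex.normSq_eq_norm_sq]
  have h2 : 1 - conj x0 * x0 = ((1 - ‖x0‖ ^ 2 : ℝ) : ℂ) := by rw [h1]; push_cast; ring
  rw [h2, Complex.norm_real, Real.norm_eq_abs, abs_of_nonneg]
  have := P.hx
  nlinarith [norm_nonneg x0]

theorem norm_Dn_xi (P : Par x0 y0 ω) {X : ℂ} (hX : X ∈ RH) :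
    ‖Dn x0 ω (xi x0 ω X)‖ = 2 * (1 - ‖x0‖ ^ 2) / ‖de x0 ω X‖ := by
  rw [Dn_xi P hX, norm_div, norm_mul, norm_mul, norm_k0 P, P.hω]
  norm_num

theorem Dn_lower (P : Par x0 y0 ω) {X : ℂ} (hX : X ∈ RH) :
    (1 - ‖x0‖ ^ 2) / ‖X + 1‖ ≤ ‖Dn x0 ω (xi x0 ω X)‖ := by
  rw [norm_Dn_xi P hX]
  have h1 := de_upper P hX
  have h2 := norm_pos_iff.mpr (de_ne P hX)
  have h3 := one_le_of_RH hX
  have h4 : 0 < 1 - ‖x0‖ ^ 2 := by
    have := P.hx
    nlinarith [norm_nonneg x0]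
  rw [div_le_div_iff₀ (by linarith) h2]
  nlinarith

theorem xi_near_x0 (P : Par x0 y0 ω) {X : ℂ} (hX : X ∈ RH) :
    ‖xi x0 ω X - x0‖ ≤ 2 * ‖X - 1‖ := by
  rw [xi_sub P hX, norm_div, norm_mul, norm_k0 P]
  have h1 := de_lower P hX
  have h2 := P.hx
  have h3 := norm_nonneg x0
  have h4 := norm_nonneg (X - 1)
  rw [div_le_iff₀ (norm_pos_iff.mpr (de_ne P hX))]
  have h5 : ‖X - 1‖ * (1 - ‖x0‖ ^ 2) ≤ ‖X - 1‖ * (2 * (1 - ‖x0‖)) := by
    apply mul_le_mul_of_nonneg_left _ h4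
    nlinarith
  have h6 : 2 * ‖X - 1‖ * (1 - ‖x0‖) ≤ 2 * ‖X - 1‖ * ‖de x0 ω X‖ :=
    mul_le_mul_of_nonneg_left h1 (by positivity)
  linarith

theorem xi_near_y0 (P : Par x0 y0 ω) {X : ℂ} (hX : X ∈ RH) :
    ‖xi x0 ω X - y0‖ ≤ 4 / ((1 - ‖x0‖) * ‖X + 1‖) := by
  have h2 := P.hx
  have h3 := norm_nonneg x0
  have h0 := one_le_of_RH hX
  have e1 : Dn x0 ω (xi x0 ω X) = -(conj x0 + ω) * (xi x0 ω X - y0) := by
    have h := P.hyω
    unfold Dn
    linear_combination h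
  have e2 : (1 - ‖x0‖) * ‖xi x0 ω X - y0‖ ≤ ‖Dn x0 ω (xi x0 ω X)‖ := by
    rw [e1, norm_mul, norm_neg]
    apply mul_le_mul_of_nonneg_right _ (norm_nonneg _)
    have := norm_sub_norm_le ω (-conj x0)
    rw [norm_neg, sub_neg_eq_add, RCLike.norm_conj, P.hω, add_comm ω] at this
    exact this
  rw [norm_Dn_xi P hX] at e2
  have h4 := de_lower' P hX
  have h5 : 0 < (1 - ‖x0‖) * ‖X + 1‖ := mul_pos (by linarith) (by linarith)
  have h6 : 2 * (1 - ‖x0‖ ^ 2) / ‖de x0 ω X‖ ≤ 2 * (1 - ‖x0‖ ^ 2) / ((1 - ‖x0‖) * ‖X + 1‖) := by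
    apply div_le_div_of_nonneg_left _ h5 h4
    nlinarith
  have h7 : 2 * (1 - ‖x0‖ ^ 2) / ((1 - ‖x0‖) * ‖X + 1‖) ≤
      (1 - ‖x0‖) * (4 / ((1 - ‖x0‖) * ‖X + 1‖)) := by
    rw [mul_div_assoc']
    apply div_le_div_of_nonneg_right _ h5.le
    nlinarith
  have h8 := (e2.trans h6).trans h7
  exact le_of_mul_le_mul_left h8 (by linarith)

/-- the parametrization of `G2` by the product of half planes -/
noncomputable def zz (x0 ω : ℂ) (q : ℂ × ℂ) : ℂ × ℂ :=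
  (xi x0 ω q.1 + xi x0 ω q.2, xi x0 ω q.1 * xi x0 ω q.2)

theorem zz_maps (P : Par x0 y0 ω) : MapsTo (zz x0 ω) H2 G2 := fun q hq =>
  ⟨xi x0 ω q.1, xi x0 ω q.2, xi_lt P hq.1, xi_lt P hq.2, rfl⟩

theorem xi_diff (P : Par x0 y0 ω) : DifferentiableOn ℂ (xi x0 ω) RH := by
  unfold xi
  apply DifferentiableOn.div
  · unfold nu; fun_prop
  · unfold de; fun_prop
  · intro X hX
    exact de_ne P hX

theorem zz_diff (P : Par x0 y0 ω) : DifferentiableOn ℂ (zz x0 ω) H2 := by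
  have h1 : DifferentiableOn ℂ (fun q : ℂ × ℂ => xi x0 ω q.1) H2 :=
    (xi_diff P).comp differentiableOn_fst (fun q hq => hq.1)
  have h2 : DifferentiableOn ℂ (fun q : ℂ × ℂ => xi x0 ω q.2) H2 :=
    (xi_diff P).comp differentiableOn_snd (fun q hq => hq.2)
  exact (h1.add h2).prodMk (h1.mul h2)

theorem zz_symm (q : ℂ × ℂ) : zz x0 ω (q.2, q.1) = zz x0 ω q := by
  unfold zz
  ext
  · exact add_comm _ _
  · exact mul_comm _ _

theorem QQ_ne (P : Par x0 y0 ω) {z : ℂ × ℂ} (hz : z ∈ G2) : QQ x0 ω z ≠ 0 := by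
  obtain ⟨a, b, ha, hb, rfl⟩ := hz
  rw [QQ_eq]
  exact mul_ne_zero (Dn_ne P ha) (Dn_ne P hb)

theorem AA_diff : Differentiable ℂ (AA x0 ω) := by unfold AA; fun_prop
theorem BB_diff : Differentiable ℂ (BB x0 ω) := by unfold BB; fun_prop
theorem QQ_diff : Differentiable ℂ (QQ x0 ω) := by unfold QQ; fun_prop

theorem G2_bound {z : ℂ × ℂ} (hz : z ∈ G2) : ‖z.1‖ ≤ 2 ∧ ‖z.2‖ ≤ 1 := by
  obtain ⟨a, b, ha, hb, rfl⟩ := hz
  constructor
  · refine (norm_add_le _ _).trans ?_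
    linarith
  · simp only [norm_mul]
    nlinarith [norm_nonneg a, norm_nonneg b]

theorem coef (P : Par x0 y0 ω) : ‖1 - ω * x0‖ ≤ 2 ∧ ‖1 + ω * x0‖ ≤ 2 ∧ ‖ω - conj x0‖ ≤ 2 ∧
    ‖-(conj x0 + ω)‖ ≤ 2 := by
  have h1 := P.hx
  have h2 := P.hω
  refine ⟨?_, ?_, ?_, ?_⟩
  · refine (norm_sub_le _ _).trans ?_
    rw [norm_mul, h2, norm_one]; linarith
  · refine (norm_add_le _ _).trans ?_
    rw [norm_mul, h2, norm_one]; linarith
  · refine (norm_sub_le _ _).trans ?_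
    rw [RCLike.norm_conj, h2]; linarith
  · rw [norm_neg]
    refine (norm_add_le _ _).trans ?_
    rw [RCLike.norm_conj, h2]; linarith

theorem norm_mul_le4 {a b : ℂ} (ha : ‖a‖ ≤ 2) (hb : ‖b‖ ≤ 2) : ‖a * b‖ ≤ 4 := by
  rw [norm_mul]
  nlinarith [norm_nonneg a, norm_nonneg b]

theorem lin_bound {c0 c1 c2 s p : ℂ} (h0 : ‖c0‖ ≤ 8) (h1 : ‖c1‖ ≤ 8) (h2 : ‖c2‖ ≤ 8)
    (hs : ‖s‖ ≤ 2) (hp : ‖p‖ ≤ 1) : ‖c0 + c1 * s + c2 * p‖ ≤ 32 := by
  refine (norm_add_le _ _).trans ?_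
  have h3 := norm_add_le c0 (c1 * s)
  rw [norm_mul] at h3
  rw [norm_mul]
  nlinarith [norm_nonneg c1, norm_nonneg c2, norm_nonneg s, norm_nonneg p]

theorem lin_diff {c0 c1 c2 s p s' p' : ℂ} (h1 : ‖c1‖ ≤ 8) (h2 : ‖c2‖ ≤ 8) :
    ‖(c0 + c1 * s' + c2 * p') - (c0 + c1 * s + c2 * p)‖ ≤ 8 * (‖s' - s‖ + ‖p' - p‖) := by
  have e : (c0 + c1 * s' + c2 * p') - (c0 + c1 * s + c2 * p) = c1 * (s' - s) + c2 * (p' - p) := by
    ring
  rw [e]
  refine (norm_add_le _ _).trans ?_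
  rw [norm_mul, norm_mul]
  nlinarith [norm_nonneg c1, norm_nonneg c2, norm_nonneg (s' - s), norm_nonneg (p' - p)]

theorem polys (P : Par x0 y0 ω) {z z' : ℂ × ℂ} (hz : z ∈ G2) :
    (‖AA x0 ω z‖ ≤ 32 ∧ ‖BB x0 ω z‖ ≤ 32 ∧ ‖QQ x0 ω z‖ ≤ 32) ∧
    (‖AA x0 ω z' - AA x0 ω z‖ ≤ 8 * (‖z'.1 - z.1‖ + ‖z'.2 - z.2‖) ∧
     ‖BB x0 ω z' - BB x0 ω z‖ ≤ 8 * (‖z'.1 - z.1‖ + ‖z'.2 - z.2‖) ∧
     ‖QQ x0 ω z' - QQ x0 ω z‖ ≤ 8 * (‖z'.1 - z.1‖ + ‖z'.2 - z.2‖)) := by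
  obtain ⟨k1, k2, k3, k4⟩ := coef P
  obtain ⟨hs, hp⟩ := G2_bound hz
  have a0 : ‖2 * (1 - ω * x0) * (1 + ω * x0)‖ ≤ 8 := by
    rw [mul_assoc, norm_mul]
    have := norm_mul_le4 k1 k2
    rw [Complex.norm_ofNat]
    linarith
  have a1 : ‖(1 - ω * x0) * (-(conj x0 + ω)) + (ω - conj x0) * (1 + ω * x0)‖ ≤ 8 := by
    refine (norm_add_le _ _).trans ?_
    have h1 := norm_mul_le4 k1 k4
    have h2 := norm_mul_le4 k3 k2
    linarith
  have a2 : ‖2 * (ω - conj x0) * (-(conj x0 + ω))‖ ≤ 8 := by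
    rw [mul_assoc, norm_mul]
    have := norm_mul_le4 k3 k4
    rw [Complex.norm_ofNat]
    linarith
  have b0 : ‖(1 - ω * x0) ^ 2‖ ≤ 8 := by
    rw [sq]
    have := norm_mul_le4 k1 k1
    linarith
  have b1 : ‖(1 - ω * x0) * (ω - conj x0)‖ ≤ 8 := by
    have := norm_mul_le4 k1 k3
    linarith
  have b2 : ‖(ω - conj x0) ^ 2‖ ≤ 8 := by
    rw [sq]
    have := norm_mul_le4 k3 k3
    linarith
  have q0 : ‖(1 + ω * x0) ^ 2‖ ≤ 8 := by
    rw [sq]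
    have := norm_mul_le4 k2 k2
    linarith
  have q1 : ‖(1 + ω * x0) * (-(conj x0 + ω))‖ ≤ 8 := by
    have := norm_mul_le4 k2 k4
    linarith
  have q2 : ‖(-(conj x0 + ω)) ^ 2‖ ≤ 8 := by
    rw [sq]
    have := norm_mul_le4 k4 k4
    linarith
  exact ⟨⟨lin_bound a0 a1 a2 hs hp, lin_bound b0 b1 b2 hs hp, lin_bound q0 q1 q2 hs hp⟩,
    ⟨lin_diff a1 a2, lin_diff b1 b2, lin_diff q1 q2⟩⟩

end par

theorem quot_bound {A A' Q Q' : ℂ} {e m : ℝ} (hA : ‖A' - A‖ ≤ 8 * e) (hQ : ‖Q' - Q‖ ≤ 8 * e)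
    (hA1 : ‖A‖ ≤ 32) (hQ1 : ‖Q‖ ≤ 32) (hq : m ≤ ‖Q‖) (hm : 0 < m) (he : 16 * e ≤ m) :
    ‖A' / Q' - A / Q‖ ≤ 1024 * e / m ^ 2 := by
  have he0 : 0 ≤ e := by
    have := norm_nonneg (A' - A)
    linarith
  have hQ' : m / 2 ≤ ‖Q'‖ := by
    have h1 : ‖Q‖ ≤ ‖Q'‖ + ‖Q' - Q‖ := by
      have := norm_sub_le Q' (Q' - Q)
      rwa [sub_sub_cancel] at this
    linarith
  have hQn : Q ≠ 0 := norm_pos_iff.mp (by linarith)
  have hQn' : Q' ≠ 0 := norm_pos_iff.mp (by linarith)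
  have e1 : A' / Q' - A / Q = ((A' - A) * Q - A * (Q' - Q)) / (Q' * Q) := by
    field_simp
    ring
  rw [e1, norm_div, norm_mul]
  have h2 : ‖(A' - A) * Q - A * (Q' - Q)‖ ≤ 512 * e := by
    refine (norm_sub_le _ _).trans ?_
    rw [norm_mul, norm_mul]
    have h3 : ‖A' - A‖ * ‖Q‖ ≤ (8 * e) * 32 :=
      mul_le_mul hA hQ1 (norm_nonneg _) (by positivity)
    have h4 : ‖A‖ * ‖Q' - Q‖ ≤ 32 * (8 * e) :=
      mul_le_mul hA1 hQ (norm_nonneg _) (by positivity)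
    linarith
  have h5 : m ^ 2 / 2 ≤ ‖Q'‖ * ‖Q‖ := by
    have := mul_le_mul hQ' hq hm.le (norm_nonneg _)
    linarith [this, sq m]
  calc ‖(A' - A) * Q - A * (Q' - Q)‖ / (‖Q'‖ * ‖Q‖) ≤ (512 * e) / (m ^ 2 / 2) :=
        div_le_div₀ (by positivity) h2 (by positivity) h5
    _ = 1024 * e / m ^ 2 := by
        field_simp
        ring

section main

variable {x0 y0 ω : ℂ}

theorem zz_contact (P : Par x0 y0 ω) {X Y : ℂ} (hX : X ∈ RH) (hY : Y ∈ RH) :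
    enrm (zz x0 ω (X, Y) - (x0 + y0, x0 * y0)) ≤
      2 * (2 * ‖X - 1‖ + 4 / ((1 - ‖x0‖) * ‖Y + 1‖)) := by
  have h1 := xi_near_x0 P hX
  have h2 := xi_near_y0 P hY
  have h3 := xi_lt P hY
  have h4 := P.hx
  refine (enrm_le _).trans ?_
  have e1 : (zz x0 ω (X, Y) - (x0 + y0, x0 * y0)).1 = (xi x0 ω X - x0) + (xi x0 ω Y - y0) := by
    simp only [zz, Prod.fst_sub]; ring
  have e2 : (zz x0 ω (X, Y) - (x0 + y0, x0 * y0)).2 =
      (xi x0 ω X - x0) * xi x0 ω Y + x0 * (xi x0 ω Y - y0) := by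
    simp only [zz, Prod.snd_sub]; ring
  rw [e1, e2]
  have h5 := norm_add_le (xi x0 ω X - x0) (xi x0 ω Y - y0)
  have h6 := norm_add_le ((xi x0 ω X - x0) * xi x0 ω Y) (x0 * (xi x0 ω Y - y0))
  rw [norm_mul, norm_mul] at h6
  have h7 : ‖xi x0 ω X - x0‖ * ‖xi x0 ω Y‖ ≤ ‖xi x0 ω X - x0‖ * 1 :=
    mul_le_mul_of_nonneg_left h3.le (norm_nonneg _)
  have h8 : ‖x0‖ * ‖xi x0 ω Y - y0‖ ≤ 1 * ‖xi x0 ω Y - y0‖ :=
    mul_le_mul_of_nonneg_right h4.le (norm_nonneg _)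
  linarith

theorem mkData (P : Par x0 y0 ω) {F : ℂ × ℂ → ℂ × ℂ} (hF : DifferentiableOn ℂ F G2)
    (hm : MapsTo F G2 G2) (hBK : BKCond G2 (x0 + y0, x0 * y0) F) :
    Data (fun q => AA x0 ω (F (zz x0 ω q)) / QQ x0 ω (F (zz x0 ω q)))
      (fun q => BB x0 ω (F (zz x0 ω q)) / QQ x0 ω (F (zz x0 ω q))) := by
  have hx := P.hx
  have hx' := norm_nonneg x0
  have hcomp : DifferentiableOn ℂ (fun q => F (zz x0 ω q)) H2 := hF.comp (zz_diff P) (zz_maps P)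
  refine ⟨?_, ?_, ?_, ?_, ?_, ?_⟩
  · simp only [div_eq_mul_inv]
    exact (AA_diff.comp_differentiableOn hcomp).mul
      ((QQ_diff.comp_differentiableOn hcomp).fun_inv fun q hq => QQ_ne P (hm (zz_maps P hq)))
  · simp only [div_eq_mul_inv]
    exact (BB_diff.comp_differentiableOn hcomp).mul
      ((QQ_diff.comp_differentiableOn hcomp).fun_inv fun q hq => QQ_ne P (hm (zz_maps P hq)))
  · intro x _ y _
    rw [← zz_symm (x, y)]
  · intro x _ y _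
    rw [← zz_symm (x, y)]
  · intro x hx y hy
    obtain ⟨a, b, ha, hb, hab⟩ := hm (zz_maps P (show (x, y) ∈ H2 from ⟨hx, hy⟩))
    refine ⟨_, cay_RH P ha, _, cay_RH P hb, ?_, ?_⟩
    · rw [hab, AA_eq, QQ_eq, div_add_div _ _ (Dn_ne P ha) (Dn_ne P hb)]
      congr 1
      ring
    · rw [hab, BB_eq, QQ_eq, div_mul_div_comm]
  · intro C hC ε hε
    set κ : ℝ := (1 - ‖x0‖ ^ 2) ^ 2 / 6 with hκ
    have hk1 : 0 < 1 - ‖x0‖ ^ 2 := by nlinarith
    have hκ0 : 0 < κ := by positivity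
    have h1x : 0 < 1 - ‖x0‖ := by linarith
    set K : ℝ := 4 * C + 8 / (1 - ‖x0‖) with hK
    have hK0 : 0 < K := by positivity
    set η : ℝ := ε * κ ^ 2 / (2048 * K ^ 3) with hη
    have hη0 : 0 < η := by positivity
    obtain ⟨δ, hδ, hδF⟩ := hBK η hη0
    filter_upwards [eventually_gt_atTop 0, eventually_ge_atTop (Nat.ceil C),
      eventually_ge_atTop (Nat.ceil (K / δ + 1)), eventually_ge_atTop (Nat.ceil (ε * κ / 64))]
      with n hn0 hnC hnK hnε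
    have hn0' : (0 : ℝ) < n := by exact_mod_cast hn0
    have hn1 : (1 : ℝ) ≤ n := by exact_mod_cast hn0
    have hnC' : C ≤ n := Nat.ceil_le.mp hnC
    have hnK' : K / δ + 1 ≤ n := Nat.ceil_le.mp hnK
    have hnε' : ε * κ / 64 ≤ n := Nat.ceil_le.mp hnε
    intro x hxR hxn
    have hnR : (n : ℂ) ∈ RH := natCast_RH hn0
    have hx1 : ‖x - 1‖ ≤ 1 := hxn.trans ((div_le_one hn0').mpr hnC')
    have hq : (x, (n : ℂ)) ∈ H2 := ⟨hxR, hnR⟩
    have hz := zz_maps P hq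
    set z := zz x0 ω (x, (n : ℂ)) with hzdef
    have hz' := hm hz
    have hnn : ‖(n : ℂ) + 1‖ = n + 1 := by
      have : (n : ℂ) + 1 = ((n + 1 : ℝ) : ℂ) := by push_cast; ring
      rw [this, Complex.norm_real, Real.norm_eq_abs, abs_of_pos (by linarith)]
    -- closeness
    have hclose : enrm (z - (x0 + y0, x0 * y0)) ≤ K / n := by
      refine (zz_contact P hxR hnR).trans ?_
      rw [hnn]
      have h1 : 4 / ((1 - ‖x0‖) * ((n : ℝ) + 1)) ≤ 4 / ((1 - ‖x0‖) * n) := by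
        apply div_le_div_of_nonneg_left (by norm_num) (by positivity)
        nlinarith
      have h2 : 2 * (2 * (C / n) + 4 / ((1 - ‖x0‖) * n)) = K / n := by
        rw [hK]
        field_simp
        ring
      rw [← h2]
      linarith
    have hlt : enrm (z - (x0 + y0, x0 * y0)) < δ := by
      refine hclose.trans_lt ?_
      rw [div_lt_iff₀ hn0']
      have : K / δ < n := by linarith
      rw [div_lt_iff₀ hδ] at this
      linarith
    have hFz := hδF z hz hlt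
    -- size of the error
    set e : ℝ := ‖(F z).1 - z.1‖ + ‖(F z).2 - z.2‖ with he
    have he1 : e ≤ 2 * η * (K / n) ^ 3 := by
      have h1 := norm_le_enrm (F z - z)
      have h2 : enrm (z - (x0 + y0, x0 * y0)) ^ 3 ≤ (K / n) ^ 3 :=
        pow_le_pow_left₀ (enrm_nonneg _) hclose 3
      have h3 : η * enrm (z - (x0 + y0, x0 * y0)) ^ 3 ≤ η * (K / n) ^ 3 :=
        mul_le_mul_of_nonneg_left h2 hη0.le
      have h4 : (F z - z).1 = (F z).1 - z.1 := rfl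
      have h5 : (F z - z).2 = (F z).2 - z.2 := rfl
      rw [h4, h5] at h1
      linarith [h1.1, h1.2]
    have he2 : 2 * η * (K / n) ^ 3 = ε * κ ^ 2 / (1024 * n ^ 3) := by
      rw [hη]
      field_simp
      ring
    rw [he2] at he1
    set m : ℝ := κ / n with hmdef
    have hm0 : 0 < m := by positivity
    have hme : 16 * e ≤ m := by
      have h1 : 16 * (ε * κ ^ 2 / (1024 * n ^ 3)) ≤ κ / n := by
        rw [mul_div_assoc', div_le_div_iff₀ (by positivity) hn0']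
        have h2 : ε * κ ≤ 64 * n := by linarith
        have h3 : ε * κ * (16 * κ * n) ≤ 64 * n * (16 * κ * n) :=
          mul_le_mul_of_nonneg_right h2 (by positivity)
        have h4 : 64 * (n : ℝ) * (16 * κ * n) ≤ κ * (1024 * n ^ 3) := by
          have : κ * (1024 * (n : ℝ) ^ 3) - 64 * n * (16 * κ * n) = 1024 * κ * n ^ 2 * (n - 1) := by
            ring
          have h5 : 0 ≤ 1024 * κ * (n : ℝ) ^ 2 * (n - 1) :=
            mul_nonneg (by positivity) (by linarith)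
          linarith
        have h6 : 16 * (ε * κ ^ 2) * (n : ℝ) = ε * κ * (16 * κ * n) := by ring
        linarith
      linarith
    -- lower bound for the denominator
    have hQ : m ≤ ‖QQ x0 ω z‖ := by
      have e1 : QQ x0 ω z = Dn x0 ω (xi x0 ω x) * Dn x0 ω (xi x0 ω n) := QQ_eq _ _ _ _
      rw [e1, norm_mul]
      have h1 := Dn_lower P hxR
      have h2 := Dn_lower P hnR
      rw [hnn] at h2
      have h3 : (1 - ‖x0‖ ^ 2) / 3 ≤ (1 - ‖x0‖ ^ 2) / ‖x + 1‖ := by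
        apply div_le_div_of_nonneg_left hk1.le
        · have := one_le_of_RH hxR
          linarith
        · have : x + 1 = (x - 1) + 2 := by ring
          rw [this]
          refine (norm_add_le _ _).trans ?_
          rw [Complex.norm_ofNat]
          linarith
      have h4 : (1 - ‖x0‖ ^ 2) / (2 * n) ≤ (1 - ‖x0‖ ^ 2) / ((n : ℝ) + 1) := by
        apply div_le_div_of_nonneg_left hk1.le (by positivity)
        linarith
      have h5 : m = (1 - ‖x0‖ ^ 2) / 3 * ((1 - ‖x0‖ ^ 2) / (2 * n)) := by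
        rw [hmdef, hκ]
        field_simp
        ring
      rw [h5]
      exact mul_le_mul (h3.trans h1) (h4.trans h2) (by positivity) (norm_nonneg _)
    obtain ⟨⟨a1, a2, a3⟩, ⟨b1, b2, b3⟩⟩ := polys (z' := F z) P hz
    have hfin : 1024 * e / m ^ 2 * n ≤ ε := by
      have h1 : 1024 * e / m ^ 2 * n ≤ 1024 * (ε * κ ^ 2 / (1024 * n ^ 3)) / m ^ 2 * n := by
        apply mul_le_mul_of_nonneg_right _ hn0'.le
        apply div_le_div_of_nonneg_right _ (by positivity)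
        linarith
      have h2 : 1024 * (ε * κ ^ 2 / (1024 * (n : ℝ) ^ 3)) / m ^ 2 * n = ε := by
        rw [hmdef]
        field_simp
      linarith
    constructor
    · have e1 : x + n = AA x0 ω z / QQ x0 ω z := by
        have h1 : AA x0 ω z = Nn x0 ω (xi x0 ω x) * Dn x0 ω (xi x0 ω n) +
          Nn x0 ω (xi x0 ω n) * Dn x0 ω (xi x0 ω x) := AA_eq _ _ _ _
        have h2 : QQ x0 ω z = Dn x0 ω (xi x0 ω x) * Dn x0 ω (xi x0 ω n) := QQ_eq _ _ _ _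
        rw [eq_div_iff (QQ_ne P hz), h1, h2, Nn_xi P hxR, Nn_xi P hnR]
        ring
      rw [e1]
      have := quot_bound b1 b3 a1 a3 hQ hm0 hme
      exact (mul_le_mul_of_nonneg_right this hn0'.le).trans hfin
    · have e1 : x * n = BB x0 ω z / QQ x0 ω z := by
        have h1 : BB x0 ω z = Nn x0 ω (xi x0 ω x) * Nn x0 ω (xi x0 ω n) := BB_eq _ _ _ _
        have h2 : QQ x0 ω z = Dn x0 ω (xi x0 ω x) * Dn x0 ω (xi x0 ω n) := QQ_eq _ _ _ _
        rw [eq_div_iff (QQ_ne P hz), h1, h2, Nn_xi P hxR, Nn_xi P hnR]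
        ring
      rw [e1]
      have := quot_bound b2 b3 a2 a3 hQ hm0 hme
      exact (mul_le_mul_of_nonneg_right this hn0'.le).trans hfin

theorem exists_par {x0 y0 : ℂ} (hx : ‖x0‖ < 1) (hy : ‖y0‖ = 1) : ∃ ω, Par x0 y0 ω := by
  have hne : y0 - x0 ≠ 0 := by
    intro h
    have : y0 = x0 := by linear_combination h
    rw [this] at hy
    linarith
  refine ⟨(1 - conj x0 * y0) / (y0 - x0), hx, hy, ?_, ?_⟩
  · have h1 : y0 * conj y0 = 1 := by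
      rw [Complex.mul_conj, Complex.normSq_eq_norm_sq, hy]; norm_num
    have h2 : 1 - conj x0 * y0 = y0 * conj (y0 - x0) := by
      rw [map_sub]
      linear_combination -h1
    rw [norm_div, h2, norm_mul, hy, RCLike.norm_conj, one_mul]
    exact div_self (norm_ne_zero_iff.mpr hne)
  · rw [div_mul_cancel₀ _ hne]

theorem rigid_of_par (P : Par x0 y0 ω) : BKRigid G2 (x0 + y0, x0 * y0) := by
  intro F hF hm hBK z hz
  have D := mkData P hF hm hBK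
  obtain ⟨x, y, hx, hy, rfl⟩ := hz
  have hX := cay_RH P hx
  have hY := cay_RH P hy
  have hs := D.sum_eq hX hY
  have hp := D.prod_eq hX hY
  have hzz : zz x0 ω (Nn x0 ω x / Dn x0 ω x, Nn x0 ω y / Dn x0 ω y) = (x + y, x * y) := by
    unfold zz
    rw [xi_cay P hx, xi_cay P hy]
  simp only [hzz] at hs hp
  obtain ⟨a, b, ha, hb, hab⟩ := hm (show (x + y, x * y) ∈ G2 from ⟨x, y, hx, hy, rfl⟩)
  rw [hab, AA_eq, QQ_eq] at hs
  rw [hab, BB_eq, QQ_eq] at hp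
  have hDa := Dn_ne P ha
  have hDb := Dn_ne P hb
  have hs' : Nn x0 ω a / Dn x0 ω a + Nn x0 ω b / Dn x0 ω b =
      Nn x0 ω x / Dn x0 ω x + Nn x0 ω y / Dn x0 ω y := by
    rw [← hs, div_add_div _ _ hDa hDb]
    congr 1
    ring
  have hp' : Nn x0 ω a / Dn x0 ω a * (Nn x0 ω b / Dn x0 ω b) =
      Nn x0 ω x / Dn x0 ω x * (Nn x0 ω y / Dn x0 ω y) := by
    rw [← hp, div_mul_div_comm]
  have hfac : (Nn x0 ω a / Dn x0 ω a - Nn x0 ω x / Dn x0 ω x) *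
      (Nn x0 ω a / Dn x0 ω a - Nn x0 ω y / Dn x0 ω y) = 0 := by
    linear_combination (Nn x0 ω a / Dn x0 ω a) * hs' - hp'
  rw [hab]
  rcases mul_eq_zero.mp hfac with h | h
  · have h1 : a = x := cay_inj P ha hx (by linear_combination h)
    have h2 : b = y := cay_inj P hb hy (by linear_combination hs' - h)
    rw [h1, h2]
  · have h1 : a = y := cay_inj P ha hy (by linear_combination h)
    have h2 : b = x := cay_inj P hb hx (by linear_combination hs' - h)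
    rw [h1, h2, add_comm, mul_comm]

end main

/-- **MP_f98e31_an, Q1 (positive answer).**  For every point `p` of the boundary of the symmetrized
bidisc outside its Shilov boundary, the pair `(G2, p)` has the Burns-Krantz rigidity property. -/
theorem result : ∀ p ∈ frontier G2, p ∉ Shilov → BKRigid G2 p := by
  intro p hp hS
  obtain ⟨x0, y0, hx, hy, rfl⟩ := smooth_point hp hS
  obtain ⟨ω, P⟩ := exists_par hx hy
  exact rigid_of_par P

end Pool.Agent.Results.MP_f98e31_an.BurnsKrantz
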